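import Pool.Agent.Y110.FJ.Stm

/-!
# Graph products and mapping tori: basic constructions
-/

set_option autoImplicit false

namespace Pool.Agent.N77.GP

open Pool.Agent.Y110.FJ
open Pool.Agent.Y462.SS (Closed)

section gp

variable {V : Type} {Λ : SimpleGraph V} {A : V → Type} [∀ v, Group (A v)]

/-- the universal property of graph products -/
noncomputable def glift {H : Type} [Group H] (F : ∀ v, A v →* H)
    (hF : ∀ v w, Λ.Adj v w → ∀ (a : A v) (b : A w), F v a * F w b = F w b * F v a) :
    GrP Λ A →* H :=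
  QuotientGroup.lift _ (Monoid.CoprodI.lift F) (by
    intro x hx
    have h1 : Subgroup.normalClosure (commRel Λ A) ≤ (Monoid.CoprodI.lift F).ker := by
      apply Subgroup.normalClosure_le_normal
      rintro r ⟨v, w, a, b, h, rfl⟩
      rw [SetLike.mem_coe, MonoidHom.mem_ker]
      simp only [map_mul, map_inv, Monoid.CoprodI.lift_of]
      rw [hF v w h a b]
      group
    exact h1 hx)

@[simp] theorem glift_of {H : Type} [Group H] (F : ∀ v, A v →* H)
    (hF : ∀ v w, Λ.Adj v w → ∀ (a : A v) (b : A w), F v a * F w b = F w b * F v a) (v : V)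
    (a : A v) : glift F hF (GrP.of Λ A v a) = F v a := by
  show (Monoid.CoprodI.lift F) (Monoid.CoprodI.of a) = F v a
  rw [Monoid.CoprodI.lift_of]

theorem ghom_ext {H : Type} [Group H] {f g : GrP Λ A →* H}
    (h : ∀ v a, f (GrP.of Λ A v a) = g (GrP.of Λ A v a)) : f = g := by
  apply QuotientGroup.monoidHom_ext
  apply Monoid.CoprodI.ext_hom
  intro v
  ext a
  exact h v a

theorem of_comm {v w : V} (h : Λ.Adj v w) (a : A v) (b : A w) :
    GrP.of Λ A v a * GrP.of Λ A w b = GrP.of Λ A w b * GrP.of Λ A v a := by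
  have h1 : (QuotientGroup.mk' (Subgroup.normalClosure (commRel Λ A)))
      (Monoid.CoprodI.of a * Monoid.CoprodI.of b * (Monoid.CoprodI.of a)⁻¹ *
        (Monoid.CoprodI.of b)⁻¹) = 1 := by
    rw [QuotientGroup.mk'_apply, QuotientGroup.eq_one_iff]
    exact Subgroup.subset_normalClosure ⟨v, w, a, b, h, rfl⟩
  rw [map_mul, map_mul, map_mul, map_inv, map_inv] at h1
  have h2 := mul_inv_eq_one.1 h1
  have h3 := mul_inv_eq_iff_eq_mul.1 h2
  exact h3

end gp

section auto

variable {V : Type} {Λ : SimpleGraph V} {A : Type} [Group A]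

/-- the endomorphism given by a permutation of the vertices and an automorphism of the vertex group -/
noncomputable def gmapHom (τ : Equiv.Perm V) (hτ : ∀ x y, Λ.Adj (τ x) (τ y) ↔ Λ.Adj x y)
    (η : MulAut A) : GrP Λ (fun _ => A) →* GrP Λ (fun _ => A) :=
  glift (fun w => (GrP.of Λ (fun _ => A) (τ w)).comp η.toMonoidHom) (fun v w h _ _ =>
    of_comm ((hτ v w).2 h) _ _)

theorem gmapHom_of (τ : Equiv.Perm V) (hτ : ∀ x y, Λ.Adj (τ x) (τ y) ↔ Λ.Adj x y)
    (η : MulAut A) (v : V) (a : A) :
    gmapHom (Λ := Λ) τ hτ η (GrP.of Λ (fun _ => A) v a) = GrP.of Λ (fun _ => A) (τ v) (η a) :=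
  glift_of _ _ _ _

theorem adj_symm {τ : Equiv.Perm V} (hτ : ∀ x y, Λ.Adj (τ x) (τ y) ↔ Λ.Adj x y) :
    ∀ x y, Λ.Adj (τ.symm x) (τ.symm y) ↔ Λ.Adj x y := fun x y => by
  rw [← hτ, τ.apply_symm_apply, τ.apply_symm_apply]

/-- the automorphism -/
noncomputable def gmap (τ : Equiv.Perm V) (hτ : ∀ x y, Λ.Adj (τ x) (τ y) ↔ Λ.Adj x y)
    (η : MulAut A) : MulAut (GrP Λ (fun _ => A)) :=
  MonoidHom.toMulEquiv (gmapHom τ hτ η) (gmapHom τ.symm (adj_symm hτ) η.symm)
    (ghom_ext fun v a => by
      rw [MonoidHom.comp_apply, gmapHom_of, gmapHom_of]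
      simp)
    (ghom_ext fun v a => by
      rw [MonoidHom.comp_apply, gmapHom_of, gmapHom_of]
      simp)

@[simp] theorem gmap_of (τ : Equiv.Perm V) (hτ : ∀ x y, Λ.Adj (τ x) (τ y) ↔ Λ.Adj x y)
    (η : MulAut A) (v : V) (a : A) :
    gmap (Λ := Λ) τ hτ η (GrP.of Λ (fun _ => A) v a) = GrP.of Λ (fun _ => A) (τ v) (η a) :=
  gmapHom_of τ hτ η v a

theorem gmap_pow_of (τ : Equiv.Perm V) (hτ : ∀ x y, Λ.Adj (τ x) (τ y) ↔ Λ.Adj x y)
    (η : MulAut A) (k : ℕ) (v : V) (a : A) :
    (gmap (Λ := Λ) τ hτ η ^ k) (GrP.of Λ (fun _ => A) v a) =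
      GrP.of Λ (fun _ => A) ((τ ^ k) v) ((η ^ k) a) := by
  induction k with
  | zero => simp
  | succ k ih =>
    rw [pow_succ', MulAut.mul_apply, ih, gmap_of, pow_succ', pow_succ']
    rfl

theorem one_adj (x y : V) : Λ.Adj ((1 : Equiv.Perm V) x) ((1 : Equiv.Perm V) y) ↔ Λ.Adj x y :=
  Iff.rfl

theorem gmap_pow_one (τ : Equiv.Perm V) (hτ : ∀ x y, Λ.Adj (τ x) (τ y) ↔ Λ.Adj x y)
    (η : MulAut A) (k : ℕ) (hk : τ ^ k = 1) :
    gmap (Λ := Λ) τ hτ η ^ k = gmap (Λ := Λ) 1 one_adj (η ^ k) := by
  apply MulEquiv.toMonoidHom_injective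
  refine ghom_ext fun v a => ?_
  have h1 := gmap_pow_of (Λ := Λ) τ hτ η k v a
  rw [hk] at h1
  have h2 := gmap_of (Λ := Λ) 1 one_adj (η ^ k) v a
  exact h1.trans h2.symm

end auto

/-! ### mapping tori -/

/-- the mapping torus `A ⋊ ℤ` of an automorphism -/
abbrev MT (A : Type) [Group A] (η : MulAut A) : Type :=
  A ⋊[zpowersHom (MulAut A) η] Multiplicative ℤ

section mt

variable {A : Type} [Group A] {η : MulAut A}

/-- the stable letter -/
def tt (η : MulAut A) : MT A η := SemidirectProduct.inr (Multiplicative.ofAdd 1)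

/-- the inclusion of the base -/
def il (η : MulAut A) : A →* MT A η := SemidirectProduct.inl

theorem tt_conj (a : A) : tt η * il η a * (tt η)⁻¹ = il η (η a) := by
  have h := SemidirectProduct.inl_aut (φ := zpowersHom (MulAut A) η) (Multiplicative.ofAdd 1) a
  have h2 : (zpowersHom (MulAut A) η) (Multiplicative.ofAdd 1) a = η a := by
    rw [zpowersHom_apply, toAdd_ofAdd, zpow_one]
  rw [h2, map_inv] at h
  exact h.symm

theorem zpow_conj {H : Type} [Group H] (F : A →* H) (s : H) (h : ∀ a, F (η a) = s * F a * s⁻¹)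
    (k : ℤ) (a : A) : F ((η ^ k) a) = s ^ k * F a * (s ^ k)⁻¹ := by
  induction k generalizing a with
  | zero => simp
  | succ n ih =>
    rw [zpow_add_one, MulAut.mul_apply, ih, h, zpow_add_one]
    group
  | pred n ih =>
    rw [zpow_sub_one, MulAut.mul_apply, ih]
    have h1 : F (η⁻¹ a) = s⁻¹ * F a * s := by
      have h2 := h (η⁻¹ a)
      rw [MulAut.apply_inv_self] at h2
      rw [h2]
      group
    rw [h1, zpow_sub_one]
    group

/-- the universal property -/
noncomputable def mtLift {H : Type} [Group H] (F : A →* H) (s : H)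
    (h : ∀ a, F (η a) = s * F a * s⁻¹) : MT A η →* H :=
  SemidirectProduct.lift F (zpowersHom H s) (by
    intro g
    ext a
    simp only [MonoidHom.comp_apply, MulEquiv.coe_toMonoidHom, MulAut.conj_apply]
    rw [zpowersHom_apply, zpowersHom_apply]
    exact zpow_conj F s h _ a)

@[simp] theorem mtLift_il {H : Type} [Group H] (F : A →* H) (s : H)
    (h : ∀ a, F (η a) = s * F a * s⁻¹) (a : A) : mtLift F s h (il η a) = F a :=
  SemidirectProduct.lift_inl _ _ _ _

@[simp] theorem mtLift_tt {H : Type} [Group H] (F : A →* H) (s : H)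
    (h : ∀ a, F (η a) = s * F a * s⁻¹) : mtLift F s h (tt η) = s := by
  have := SemidirectProduct.lift_inr (φ := zpowersHom (MulAut A) η) F (zpowersHom H s) (by
    intro g
    ext a
    simp only [MonoidHom.comp_apply, MulEquiv.coe_toMonoidHom, MulAut.conj_apply]
    rw [zpowersHom_apply, zpowersHom_apply]
    exact zpow_conj F s h _ a) (Multiplicative.ofAdd 1)
  rw [zpowersHom_apply, toAdd_ofAdd, zpow_one] at this
  exact this

theorem mt_form (x : MT A η) : x = il η x.left * tt η ^ (Multiplicative.toAdd x.right) := by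
  have h1 := SemidirectProduct.inl_left_mul_inr_right x
  conv_lhs => rw [← h1]
  congr 1
  show SemidirectProduct.inr x.right = (SemidirectProduct.inr (Multiplicative.ofAdd 1)) ^ _
  rw [← map_zpow]
  congr 1
  rw [← ofAdd_zsmul]
  simp

theorem mt_hom_ext {H : Type} [Group H] {f g : MT A η →* H} (h1 : ∀ a, f (il η a) = g (il η a))
    (h2 : f (tt η) = g (tt η)) : f = g := by
  ext x
  rw [mt_form x, map_mul, map_mul, map_zpow, map_zpow, h1, h2]

theorem mtLift_apply {H : Type} [Group H] (F : A →* H) (s : H)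
    (h : ∀ a, F (η a) = s * F a * s⁻¹) (x : MT A η) :
    mtLift F s h x = F x.left * s ^ (Multiplicative.toAdd x.right) := by
  conv_lhs => rw [mt_form x]
  rw [map_mul, map_zpow, mtLift_il, mtLift_tt]

variable {C : ∀ (G : Type) [Group G], Prop}

/-- mapping tori in `C` -/
theorem mt_of (hC : Closed C) {P : Type} [Group P] (hP : C P) (j : A →* P)
    (hj : Function.Injective j) (t : P) (h : ∀ a, j (η a) = t * j a * t⁻¹) : C (MT A η) := by
  have h' : ∀ a, (j.prod (1 : A →* Multiplicative ℤ)) (η a) =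
      (t, Multiplicative.ofAdd (1 : ℤ)) * (j.prod (1 : A →* Multiplicative ℤ)) a *
        (t, Multiplicative.ofAdd (1 : ℤ))⁻¹ := by
    intro a
    refine Prod.ext (h a) ?_
    show (1 : Multiplicative ℤ) = Multiplicative.ofAdd 1 * 1 * (Multiplicative.ofAdd 1)⁻¹
    simp
  refine hC.of_injective _ (P × Multiplicative ℤ)
    (mtLift (j.prod (1 : A →* Multiplicative ℤ)) (t, Multiplicative.ofAdd 1) h') ?_
    (hC.prod _ _ hP hC.int)
  rw [injective_iff_map_eq_one]
  intro x hx
  rw [mtLift_apply] at hx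
  have h1 : j x.left * t ^ (Multiplicative.toAdd x.right) = 1 := by
    have := congrArg Prod.fst hx
    simpa using this
  have h2 : (Multiplicative.ofAdd (1 : ℤ)) ^ (Multiplicative.toAdd x.right) = 1 := by
    have := congrArg Prod.snd hx
    simpa using this
  have h3 : x.right = 1 := by
    rw [← ofAdd_zsmul] at h2
    simpa using h2
  rw [h3] at h1
  have h4 : x.left = 1 := by
    apply hj
    simpa using h1
  exact SemidirectProduct.ext h4 h3

theorem mt_one (hC : Closed C) (hA : C A) : C (MT A (1 : MulAut A)) :=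
  mt_of hC hA (MonoidHom.id A) Function.injective_id 1 (fun a => by simp)

theorem mt_base (hC : Closed C) (h : C (MT A η)) : C A :=
  hC.of_injective _ _ (il η) SemidirectProduct.inl_injective h

theorem mt_prod (hC : Closed C) {B : Type} [Group B] {θ : MulAut B} (hA : C (MT A η))
    (hB : C (MT B θ)) : C (MT (A × B) (MulEquiv.prodCongr η θ)) := by
  refine mt_of hC (hC.prod _ _ hA hB) ((il η).prodMap (il θ)) ?_ (tt η, tt θ) ?_
  · intro x y hxy
    refine Prod.ext ?_ ?_
    · exact SemidirectProduct.inl_injective (congrArg Prod.fst hxy)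
    · exact SemidirectProduct.inl_injective (congrArg Prod.snd hxy)
  · intro x
    refine Prod.ext ?_ ?_
    · exact (tt_conj x.1).symm
    · exact (tt_conj x.2).symm

/-- powers of the automorphism -/
theorem mt_pow (hC : Closed C) {k : ℕ} (hk : 0 < k) (h : C (MT A (η ^ k))) : C (MT A η) := by
  have h0 : ∀ a, (il η) ((η ^ k) a) = tt η ^ k * il η a * (tt η ^ k)⁻¹ := by
    intro a
    have := zpow_conj (η := η) (il η) (tt η) (fun a => (tt_conj a).symm) k a
    simpa using this
  have : NeZero k := ⟨hk.ne'⟩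
  let ψ : MT A η →* Multiplicative (ZMod k) :=
    (AddMonoidHom.toMultiplicative (Int.castAddHom (ZMod k))).comp SemidirectProduct.rightHom
  have hfin : ψ.ker.FiniteIndex := Subgroup.finiteIndex_ker ψ
  refine hC.finiteIndex _ ψ.ker hfin ?_
  have hr : C (mtLift (η := η ^ k) (il η) (tt η ^ k) h0).range := by
    have hinj : Function.Injective (mtLift (η := η ^ k) (il η) (tt η ^ k) h0) := by
      rw [injective_iff_map_eq_one]
      intro x hx
      rw [mtLift_apply] at hx
      have h1 := congrArg SemidirectProduct.right hx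
      have h2 : x.right = 1 := by
        have h3 : (SemidirectProduct.rightHom (φ := zpowersHom (MulAut A) η))
            (il η x.left * (tt η ^ k) ^ (Multiplicative.toAdd x.right)) = 1 := h1
        rw [map_mul, map_zpow, map_pow SemidirectProduct.rightHom (tt η) k] at h3
        have h4 : (SemidirectProduct.rightHom (φ := zpowersHom (MulAut A) η)) (il η x.left) = 1 :=
          SemidirectProduct.rightHom_inl _
        have h5 : (SemidirectProduct.rightHom (φ := zpowersHom (MulAut A) η)) (tt η) =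
          Multiplicative.ofAdd 1 := SemidirectProduct.rightHom_inr _
        rw [h4, h5, one_mul, ← ofAdd_nsmul, ← ofAdd_zsmul] at h3
        have h6 : (Multiplicative.toAdd x.right) * (k : ℤ) = 0 := by
          have h7 := Multiplicative.ofAdd.injective (h3.trans ofAdd_zero.symm)
          simpa using h7
        have h8 : (k : ℤ) ≠ 0 := by exact_mod_cast hk.ne'
        have h9 : Multiplicative.toAdd x.right = 0 := by
          rcases mul_eq_zero.1 h6 with h | h
          · exact h
          · exact absurd h h8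
        exact Multiplicative.toAdd.injective h9
      rw [h2] at hx
      have h3 : il η x.left = 1 := by simpa using hx
      have h4 : x.left = 1 := SemidirectProduct.inl_injective (h3.trans (map_one _).symm)
      exact SemidirectProduct.ext h4 h2
    exact hC.of_injective _ _ (MonoidHom.ofInjective hinj).symm.toMonoidHom
      (MonoidHom.ofInjective hinj).symm.injective h
  have hle : ψ.ker ≤ (mtLift (η := η ^ k) (il η) (tt η ^ k) h0).range := by
    intro x hx
    have h1 : ((Multiplicative.toAdd x.right : ℤ) : ZMod k) = 0 := by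
      have h2 : ψ x = 1 := hx
      exact Multiplicative.toAdd.injective.eq_iff.2 h2 |>.trans rfl
    obtain ⟨m, hm⟩ := (ZMod.intCast_zmod_eq_zero_iff_dvd _ _).1 h1
    refine ⟨il (η ^ k) x.left * tt (η ^ k) ^ m, ?_⟩
    rw [map_mul, map_zpow, mtLift_il, mtLift_tt]
    conv_rhs => rw [mt_form x]
    rw [hm, zpow_mul, zpow_natCast]
  exact hC.of_injective _ _ (Subgroup.inclusion hle) (Subgroup.inclusion_injective hle) hr

end mt

end Pool.Agent.N77.GP
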