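import Pool.Agent.N77.GP.Basic
import Pool.Agent.Y812.SS.Wr

/-!
# Groups with an automorphism that contain a family of permuted groups
-/

set_option autoImplicit false

namespace Pool.Agent.N77.GP

open Pool.Agent.Y110.FJ
open Pool.Agent.Y462.SS (Closed)
open Pool.Agent.Y812.SS (C_subsingleton)

variable {C : ∀ (G : Type) [Group G], Prop}

/-- finite products -/
theorem C_pi (hC : Closed C) (X : Type) [hX : Finite X] :
    ∀ (Γ : X → Type) [∀ x, Group (Γ x)], (∀ x, C (Γ x)) → C (∀ x, Γ x) := by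
  refine Finite.induction_empty_option
    (P := fun X : Type => ∀ (Γ : X → Type) [∀ x, Group (Γ x)], (∀ x, C (Γ x)) → C (∀ x, Γ x))
    ?_ ?_ ?_ X
  · intro α β e hα Γ _ h
    refine hC.of_injective (∀ x, Γ x) (∀ a, Γ (e a))
      { toFun := fun f a => f (e a), map_one' := rfl, map_mul' := fun _ _ => rfl } ?_
      (hα (fun a => Γ (e a)) fun a => h _)
    intro f g hfg
    funext b
    obtain ⟨a, rfl⟩ := e.surjective b
    exact congrFun hfg a
  · intro Γ _ _
    exact C_subsingleton hC _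
  · intro α _ hα Γ _ h
    refine hC.of_injective (∀ x, Γ x) (Γ none × (∀ a, Γ (some a)))
      { toFun := fun f => (f none, fun a => f (some a)), map_one' := rfl,
        map_mul' := fun _ _ => rfl } ?_ (hC.prod _ _ (h none) (hα _ fun a => h _))
    intro f g hfg
    have h1 := congrArg Prod.fst hfg
    have h2 := congrArg Prod.snd hfg
    funext b
    cases b with
    | none => exact h1
    | some a => exact congrFun h2 a

theorem inv_app {V : Type} (σ : Equiv.Perm V) (x : V) : σ⁻¹ (σ x) = x := σ.symm_apply_apply x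

theorem app_inv {V : Type} (σ : Equiv.Perm V) (x : V) : σ (σ⁻¹ x) = x := σ.apply_symm_apply x

section block

variable {G V : Type} [Group G] {K : V → Subgroup G} {h : G} {σ : Equiv.Perm V}

theorem zconj (hc : ∀ v x, x ∈ K v → h * x * h⁻¹ ∈ K (σ v))
    (hc' : ∀ v x, x ∈ K (σ v) → h⁻¹ * x * h ∈ K v) (j : ℤ) :
    ∀ (v : V) (x : G), x ∈ K v → h ^ j * x * (h ^ j)⁻¹ ∈ K ((σ ^ j) v) := by
  induction j with
  | zero =>
    intro v x hx
    simpa using hx
  | succ n ih =>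
    intro v x hx
    have h1 := hc _ _ (ih v x hx)
    rw [add_comm (n : ℤ) 1, zpow_one_add, zpow_one_add, Equiv.Perm.mul_apply]
    have h2 : h * h ^ (n : ℤ) * x * (h * h ^ (n : ℤ))⁻¹ =
        h * (h ^ (n : ℤ) * x * (h ^ (n : ℤ))⁻¹) * h⁻¹ := by group
    rw [h2]
    exact h1
  | pred n ih =>
    intro v x hx
    have h1 := ih v x hx
    have h3 : (σ ^ (-(n : ℤ))) v = σ ((σ ^ (-(n : ℤ) - 1)) v) := by
      rw [← Equiv.Perm.mul_apply, ← zpow_one_add]
      congr 2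
      ring
    rw [h3] at h1
    have h4 := hc' _ _ h1
    have h2 : h ^ (-(n : ℤ) - 1) * x * (h ^ (-(n : ℤ) - 1))⁻¹ =
        h⁻¹ * (h ^ (-(n : ℤ)) * x * (h ^ (-(n : ℤ)))⁻¹) * h := by
      rw [sub_eq_add_neg, add_comm (-(n : ℤ)) (-1), zpow_add, zpow_neg_one]
      group
    rw [h2]
    exact h4

/-- a vertex with an infinite orbit -/
theorem block_inf (hC : Closed C) (hK0 : ∀ v, C (K v))
    (hc : ∀ v x, x ∈ K v → h * x * h⁻¹ ∈ K (σ v))
    (hc' : ∀ v x, x ∈ K (σ v) → h⁻¹ * x * h ∈ K v) (u : V)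
    (hu : ∀ k : ℕ, 0 < k → (σ ^ k) u ≠ u) :
    ∃ (B : Type) (_ : Group B) (θ : MulAut B) (ε : ∀ w, K w →* B) (ρ : B →* K u),
      C (MT B θ) ∧ (∀ w (x : K w), θ (ε w x) = ε (σ w) ⟨h * x * h⁻¹, hc w x x.2⟩) ∧
      ∀ x, ρ (ε u x) = x := by
  classical
  have hinj : ∀ i j : ℤ, (σ ^ i) u = (σ ^ j) u → i = j := by
    have key : ∀ i j : ℤ, i < j → (σ ^ i) u ≠ (σ ^ j) u := by
      intro i j hij heq
      have h1 : (σ ^ (j - i)) u = u := by
        have h2 : (σ ^ (j - i)) u = (σ ^ (-i)) ((σ ^ j) u) := by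
          rw [← Equiv.Perm.mul_apply, ← zpow_add]
          congr 2
          ring
        rw [h2, ← heq, ← Equiv.Perm.mul_apply, ← zpow_add]
        simp
      refine hu (j - i).toNat (by omega) ?_
      rw [← zpow_natCast, Int.toNat_of_nonneg (by omega)]
      exact h1
    intro i j heq
    rcases lt_trichotomy i j with hlt | heq' | hlt
    · exact absurd heq (key i j hlt)
    · exact heq'
    · exact absurd heq.symm (key j i hlt)
  let cj : ∀ (j : ℤ) (w : V), (σ ^ j) u = w → K w →* K u := fun j w hw =>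
    { toFun := fun x => ⟨(h ^ j)⁻¹ * x * h ^ j, by
        have h1 := zconj hc hc' (-j) w x x.2
        have h2 : (σ ^ (-j)) w = u := by rw [zpow_neg, ← hw, inv_app]
        rw [h2, zpow_neg, inv_inv] at h1
        exact h1⟩
      map_one' := Subtype.ext (by simp)
      map_mul' := fun x y => Subtype.ext (by
        show (h ^ j)⁻¹ * (x * y) * h ^ j = (h ^ j)⁻¹ * x * h ^ j * ((h ^ j)⁻¹ * y * h ^ j)
        group) }
  obtain ⟨ε, hε1, hε2⟩ : ∃ ε : ∀ w, K w →* K u,
      (∀ w (hw : ∃ j : ℤ, (σ ^ j) u = w), ε w = cj hw.choose w hw.choose_spec) ∧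
      ∀ w, (¬ ∃ j : ℤ, (σ ^ j) u = w) → ε w = 1 :=
    ⟨fun w => if hw : ∃ j : ℤ, (σ ^ j) u = w then cj hw.choose w hw.choose_spec else 1,
      fun w hw => by simp only [dif_pos hw], fun w hw => by simp only [dif_neg hw]⟩
  refine ⟨K u, inferInstance, 1, ε, MonoidHom.id _, mt_one hC (hK0 u), ?_, ?_⟩
  · intro w x
    rw [MulAut.one_apply]
    by_cases hw : ∃ j : ℤ, (σ ^ j) u = w
    · have hw' : ∃ j : ℤ, (σ ^ j) u = σ w := by
        obtain ⟨j, hj⟩ := hw
        exact ⟨1 + j, by rw [zpow_one_add, Equiv.Perm.mul_apply, hj]⟩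
      rw [hε1 w hw, hε1 _ hw']
      have h1 : hw'.choose = 1 + hw.choose := by
        apply hinj
        rw [hw'.choose_spec, zpow_one_add, Equiv.Perm.mul_apply, hw.choose_spec]
      apply Subtype.ext
      show (h ^ hw.choose)⁻¹ * x * h ^ hw.choose =
        (h ^ hw'.choose)⁻¹ * (h * x * h⁻¹) * h ^ hw'.choose
      rw [h1, zpow_one_add]
      group
    · have hw' : ¬ ∃ j : ℤ, (σ ^ j) u = σ w := by
        rintro ⟨j, hj⟩
        refine hw ⟨-1 + j, ?_⟩
        rw [zpow_add, Equiv.Perm.mul_apply, hj, zpow_neg_one, inv_app]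
      rw [hε2 w hw, hε2 _ hw']
      simp
  · intro x
    have hw : ∃ j : ℤ, (σ ^ j) u = u := ⟨0, by simp⟩
    rw [hε1 u hw]
    have h1 : hw.choose = 0 := by
      apply hinj
      rw [hw.choose_spec, zpow_zero, Equiv.Perm.one_apply]
    apply Subtype.ext
    show (h ^ hw.choose)⁻¹ * x * h ^ hw.choose = x
    rw [h1]
    simp

/-- functions with values in the subgroups, supported on `O` -/
def BS (K : V → Subgroup G) (O : Set V) : Subgroup (V → G) where
  carrier := {b | ∀ w, b w ∈ K w ∧ (w ∉ O → b w = 1)}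
  one_mem' := fun w => ⟨one_mem _, fun _ => rfl⟩
  mul_mem' := fun {a b} ha hb w => ⟨mul_mem (ha w).1 (hb w).1, fun hw => by
    rw [Pi.mul_apply, (ha w).2 hw, (hb w).2 hw, mul_one]⟩
  inv_mem' := fun {a} ha w => ⟨inv_mem (ha w).1, fun hw => by
    rw [Pi.inv_apply, (ha w).2 hw, inv_one]⟩

/-- the shift -/
def shf (hc : ∀ v x, x ∈ K v → h * x * h⁻¹ ∈ K (σ v))
    (hc' : ∀ v x, x ∈ K (σ v) → h⁻¹ * x * h ∈ K v) (O : Set V) (hO : ∀ w, σ w ∈ O ↔ w ∈ O) :
    MulAut (BS K O) where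
  toFun b := ⟨fun w => h * b.1 (σ⁻¹ w) * h⁻¹, fun w => ⟨by
    have h1 := hc _ _ (b.2 (σ⁻¹ w)).1
    rwa [app_inv] at h1, fun hw => by
    have h1 : b.1 (σ⁻¹ w) = 1 := (b.2 (σ⁻¹ w)).2 (fun h2 => hw (by
      have := (hO _).2 h2
      rwa [app_inv] at this))
    show h * b.1 (σ⁻¹ w) * h⁻¹ = 1
    rw [h1]
    group⟩⟩
  invFun b := ⟨fun w => h⁻¹ * b.1 (σ w) * h, fun w => ⟨hc' _ _ (b.2 (σ w)).1, fun hw => by
    have h1 : b.1 (σ w) = 1 := (b.2 (σ w)).2 (fun h2 => hw ((hO _).1 h2))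
    show h⁻¹ * b.1 (σ w) * h = 1
    rw [h1]
    group⟩⟩
  left_inv b := by
    apply Subtype.ext
    funext w
    show h⁻¹ * (h * b.1 (σ⁻¹ (σ w)) * h⁻¹) * h = b.1 w
    rw [inv_app]
    group
  right_inv b := by
    apply Subtype.ext
    funext w
    show h * (h⁻¹ * b.1 (σ (σ⁻¹ w)) * h) * h⁻¹ = b.1 w
    rw [app_inv]
    group
  map_mul' a b := by
    apply Subtype.ext
    funext w
    show h * (a.1 (σ⁻¹ w) * b.1 (σ⁻¹ w)) * h⁻¹ =
      h * a.1 (σ⁻¹ w) * h⁻¹ * (h * b.1 (σ⁻¹ w) * h⁻¹)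
    group

theorem shf_pow (hc : ∀ v x, x ∈ K v → h * x * h⁻¹ ∈ K (σ v))
    (hc' : ∀ v x, x ∈ K (σ v) → h⁻¹ * x * h ∈ K v) (O : Set V) (hO : ∀ w, σ w ∈ O ↔ w ∈ O)
    (k : ℕ) (b : BS K O) (w : V) :
    ((shf hc hc' O hO ^ k) b).1 w = h ^ k * b.1 ((σ ^ k)⁻¹ w) * (h ^ k)⁻¹ := by
  induction k generalizing w with
  | zero => simp
  | succ k ih =>
    rw [pow_succ', MulAut.mul_apply]
    show h * ((shf hc hc' O hO ^ k) b).1 (σ⁻¹ w) * h⁻¹ = _
    rw [ih, pow_succ', pow_succ', mul_inv_rev σ, Equiv.Perm.mul_apply]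
    group

open Classical in
/-- a vertex with a finite orbit -/
theorem block_fin (hC : Closed C)
    (hK : ∀ v (k : ℕ), 0 < k → (σ ^ k) v = v → C ↥(K v ⊔ Subgroup.zpowers (h ^ k)))
    (hc : ∀ v x, x ∈ K v → h * x * h⁻¹ ∈ K (σ v))
    (hc' : ∀ v x, x ∈ K (σ v) → h⁻¹ * x * h ∈ K v) (u : V)
    (k : ℕ) (hk : 0 < k) (hku : (σ ^ k) u = u) :
    ∃ (B : Type) (_ : Group B) (θ : MulAut B) (ε : ∀ w, K w →* B) (ρ : B →* K u),
      C (MT B θ) ∧ (∀ w (x : K w), θ (ε w x) = ε (σ w) ⟨h * x * h⁻¹, hc w x x.2⟩) ∧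
      ∀ x, ρ (ε u x) = x := by
  classical
  obtain ⟨O, hOdef⟩ : ∃ O : Set V, O = {w | ∃ j : ℤ, (σ ^ j) u = w} := ⟨_, rfl⟩
  have hO : ∀ w, σ w ∈ O ↔ w ∈ O := by
    intro w
    rw [hOdef]
    constructor
    · rintro ⟨j, hj⟩
      refine ⟨-1 + j, ?_⟩
      rw [zpow_add, Equiv.Perm.mul_apply, hj, zpow_neg_one, inv_app]
    · rintro ⟨j, hj⟩
      exact ⟨1 + j, by rw [zpow_one_add, Equiv.Perm.mul_apply, hj]⟩
  have hu : u ∈ O := by
    rw [hOdef]
    exact ⟨0, by simp⟩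
  have hkz : ∀ j : ℤ, (σ ^ ((k : ℤ) * j)) u = u := by
    intro j
    have h1 : Function.IsFixedPt (σ ^ k) u := hku
    rw [zpow_mul, zpow_natCast]
    induction j with
    | zero => simp
    | succ n ih => rw [zpow_add_one, Equiv.Perm.mul_apply, hku, ih]
    | pred n ih =>
      rw [zpow_sub_one, Equiv.Perm.mul_apply]
      have h2 : (σ ^ k)⁻¹ u = u := by
        rw [Equiv.Perm.inv_eq_iff_eq, hku]
      rw [h2, ih]
  have hfin : O.Finite := by
    have h1 : O ⊆ (fun i : ℕ => (σ ^ i) u) '' (Set.Iio k) := by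
      rw [hOdef]
      rintro w ⟨j, hj⟩
      have hk' : (0 : ℤ) < k := by exact_mod_cast hk
      refine ⟨(j % k).toNat, ?_, ?_⟩
      · have h2 := Int.emod_lt_of_pos j hk'
        have h3 := Int.emod_nonneg j hk'.ne'
        show (j % k).toNat < k
        omega
      · have h3 := Int.emod_nonneg j hk'.ne'
        show (σ ^ (j % k).toNat) u = w
        rw [← zpow_natCast, Int.toNat_of_nonneg h3, ← hj]
        conv_rhs => rw [← Int.emod_add_mul_ediv j k]
        rw [zpow_add, Equiv.Perm.mul_apply, hkz]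
    exact (Set.Finite.image _ (Set.finite_Iio k)).subset h1
  have hfix : ∀ w ∈ O, (σ ^ k) w = w := by
    intro w hw
    rw [hOdef] at hw
    obtain ⟨j, rfl⟩ := hw
    rw [← Equiv.Perm.mul_apply, ← zpow_natCast σ k, ← zpow_add, add_comm, zpow_add,
      Equiv.Perm.mul_apply, zpow_natCast, hku]
  have hOf : Finite O := hfin
  let ε : ∀ w, K w →* BS K O := fun w => if hw : w ∈ O then
    ((MonoidHom.mulSingle (fun _ : V => G) w).comp (K w).subtype).codRestrict (BS K O)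
      (fun x w' => by
        by_cases h1 : w' = w
        · subst h1
          exact ⟨by simp, fun h2 => absurd hw h2⟩
        · exact ⟨by simp [Pi.mulSingle_eq_of_ne h1], fun _ => by simp [Pi.mulSingle_eq_of_ne h1]⟩)
    else 1
  have hεO : ∀ w (hw : w ∈ O) (x : K w), (ε w x).1 = Pi.mulSingle w (x : G) := by
    intro w hw x
    simp only [ε, dif_pos hw]
    rfl
  have hεn : ∀ w (hw : w ∉ O) (x : K w), ε w x = 1 := by
    intro w hw x
    simp only [ε, dif_neg hw, MonoidHom.one_apply]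
  refine ⟨BS K O, inferInstance, shf hc hc' O hO, ε,
    { toFun := fun b => ⟨b.1 u, (b.2 u).1⟩, map_one' := rfl, map_mul' := fun _ _ => rfl },
    ?_, ?_, ?_⟩
  · refine mt_pow hC hk ?_
    refine mt_of hC (C_pi hC O (fun w => ↥(K w.1 ⊔ Subgroup.zpowers (h ^ k)))
      (fun w => hK w.1 k hk (hfix w.1 w.2)))
      { toFun := fun b w => ⟨b.1 w.1, Subgroup.mem_sup_left (b.2 w.1).1⟩,
        map_one' := rfl, map_mul' := fun _ _ => rfl } ?_
      (fun w => ⟨h ^ k, Subgroup.mem_sup_right (Subgroup.mem_zpowers _)⟩) ?_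
    · intro a b hab
      apply Subtype.ext
      funext w
      by_cases hw : w ∈ O
      · exact congrArg Subtype.val (congrFun hab ⟨w, hw⟩)
      · rw [(a.2 w).2 hw, (b.2 w).2 hw]
    · intro b
      funext w
      apply Subtype.ext
      show ((shf hc hc' O hO ^ k) b).1 w.1 = h ^ k * b.1 w.1 * (h ^ k)⁻¹
      rw [shf_pow]
      have h1 : (σ ^ k)⁻¹ w.1 = w.1 := by
        rw [Equiv.Perm.inv_eq_iff_eq, hfix w.1 w.2]
      rw [h1]
  · intro w x
    by_cases hw : w ∈ O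
    · apply Subtype.ext
      funext w'
      rw [hεO (σ w) ((hO w).2 hw)]
      show h * (ε w x).1 (σ⁻¹ w') * h⁻¹ = _
      rw [hεO w hw]
      by_cases h1 : w' = σ w
      · subst h1
        rw [inv_app, Pi.mulSingle_eq_same, Pi.mulSingle_eq_same]
      · have h2 : σ⁻¹ w' ≠ w := by
          intro h3
          apply h1
          rw [← h3, app_inv]
        rw [Pi.mulSingle_eq_of_ne h2, Pi.mulSingle_eq_of_ne h1]
        group
    · rw [hεn w hw, hεn (σ w) (fun h1 => hw ((hO w).1 h1)), map_one]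
  · intro x
    apply Subtype.ext
    show (ε u x).1 u = x
    rw [hεO u hu, Pi.mulSingle_eq_same]

/-- finitely many vertices -/
theorem blocks (hC : Closed C) (hK0 : ∀ v, C (K v))
    (hK : ∀ v (k : ℕ), 0 < k → (σ ^ k) v = v → C ↥(K v ⊔ Subgroup.zpowers (h ^ k)))
    (hc : ∀ v x, x ∈ K v → h * x * h⁻¹ ∈ K (σ v))
    (hc' : ∀ v x, x ∈ K (σ v) → h⁻¹ * x * h ∈ K v) (J : Set V) (hJ : J.Finite) :
    ∃ (B : Type) (_ : Group B) (θ : MulAut B) (ε : ∀ w, K w →* B) (ρ : ∀ u, B →* K u),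
      C (MT B θ) ∧ (∀ w (x : K w), θ (ε w x) = ε (σ w) ⟨h * x * h⁻¹, hc w x x.2⟩) ∧
      ∀ u ∈ J, ∀ x, ρ u (ε u x) = x := by
  classical
  induction J, hJ using Set.Finite.induction_on with
  | empty =>
    refine ⟨PUnit, inferInstance, 1, fun _ => 1, fun _ => 1, mt_one hC (C_subsingleton hC _),
      fun w x => rfl, fun u hu => absurd hu (Set.notMem_empty u)⟩
  | @insert a s _ _ ih =>
    obtain ⟨B, _, θ, ε, ρ, h1, h2, h3⟩ := ih
    obtain ⟨B', _, θ', ε', ρ', h1', h2', h3'⟩ :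
        ∃ (B : Type) (_ : Group B) (θ : MulAut B) (ε : ∀ w, K w →* B) (ρ : B →* K a),
          C (MT B θ) ∧ (∀ w (x : K w), θ (ε w x) = ε (σ w) ⟨h * x * h⁻¹, hc w x x.2⟩) ∧
          ∀ x, ρ (ε a x) = x := by
      by_cases hk : ∃ k : ℕ, 0 < k ∧ (σ ^ k) a = a
      · obtain ⟨k, hk, hka⟩ := hk
        exact block_fin hC hK hc hc' a k hk hka
      · push Not at hk
        exact block_inf hC hK0 hc hc' a hk
    refine ⟨B × B', inferInstance, MulEquiv.prodCongr θ θ', fun w => (ε w).prod (ε' w),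
      fun u => if hu : u = a then
        (by
          subst hu
          exact ρ'.comp (MonoidHom.snd B B'))
        else (ρ u).comp (MonoidHom.fst B B'), mt_prod hC h1 h1', ?_, ?_⟩
    · intro w x
      exact Prod.ext (h2 w x) (h2' w x)
    · intro u hu x
      by_cases hua : u = a
      · subst hua
        simp only [dif_pos]
        exact h3' x
      · simp only [dif_neg hua]
        exact h3 u (Set.mem_of_mem_insert_of_ne hu hua) x

end block

end Pool.Agent.N77.GP
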