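import Pool.Agent.N77.GP.Basic
import Pool.Agent.Y417.FJ.Am
import Pool.Agent.Y529.FJ.Ext
import Pool.Agent.Y961.FJ.Perm
import Pool.Agent.R941.FJ.Hyper

/-!
# Mapping tori of finite graph products with equal vertex groups
-/

set_option autoImplicit false

namespace Pool.Agent.N77.GP

open Pool.Agent.Y110.FJ
open Pool.Agent.Y462.SS (Closed)
open Pool.Agent.R941.FJ (C_cyc C_le C_equiv)

variable {C : ∀ (G : Type) [Group G], Prop}

/-- amalgams inside a group -/
theorem am_in (hC : ClosedE C) {Γ P : Type} [Group Γ] [Group P] (A B K : Subgroup Γ)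
    (hKA : K ≤ A) (hKB : K ≤ B)
    (univ : ∀ (H : Type) [Group H] (f : A →* H) (g : B →* H),
      (∀ (c : Γ) (hc : c ∈ K), f ⟨c, hKA hc⟩ = g ⟨c, hKB hc⟩) →
      ∃ h : Γ →* H, (∀ a : A, h a = f a) ∧ ∀ b : B, h b = g b)
    (f : Γ →* P) (hfA : ∀ a ∈ A, f a = 1 → a = 1) (hfB : ∀ b ∈ B, f b = 1 → b = 1) (hP : C P) :
    C ↥(A ⊔ B) := by
  have hperm := Pool.Agent.Y961.FJ.t_perm Pool.Agent.Y529.FJ.t_ext
  have ham : Amg (A.subgroupOf (A ⊔ B)) (B.subgroupOf (A ⊔ B)) (K.subgroupOf (A ⊔ B)) := by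
    refine ⟨?_, ?_, ?_, ?_⟩
    · intro x hx
      exact Subgroup.mem_subgroupOf.2 (hKA (Subgroup.mem_subgroupOf.1 hx))
    · intro x hx
      exact Subgroup.mem_subgroupOf.2 (hKB (Subgroup.mem_subgroupOf.1 hx))
    · rw [← Subgroup.subgroupOf_sup (le_sup_left : A ≤ A ⊔ B) (le_sup_right : B ≤ A ⊔ B)]
      exact Subgroup.subgroupOf_self _
    · intro H _ f' g' hfg
      obtain ⟨h, h1, h2⟩ := univ H
        (f'.comp (Subgroup.subgroupOfEquivOfLe (le_sup_left : A ≤ A ⊔ B)).symm.toMonoidHom)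
        (g'.comp (Subgroup.subgroupOfEquivOfLe (le_sup_right : B ≤ A ⊔ B)).symm.toMonoidHom)
        (fun c hc => hfg ⟨c, (le_sup_left : A ≤ A ⊔ B) (hKA hc)⟩ (Subgroup.mem_subgroupOf.2 hc))
      refine ⟨h.comp (A ⊔ B).subtype, fun a => ?_, fun b => ?_⟩
      · exact h1 ⟨a.1.1, Subgroup.mem_subgroupOf.1 a.2⟩
      · exact h2 ⟨b.1.1, Subgroup.mem_subgroupOf.1 b.2⟩
  refine Pool.Agent.Y417.FJ.t_am hperm C hC ↥(A ⊔ B) P _ _ _ ham (f.comp (A ⊔ B).subtype) ?_ ?_ hP
  · intro a ha h
    exact Subtype.ext (hfA a (Subgroup.mem_subgroupOf.1 ha) h)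
  · intro b hb h
    exact Subtype.ext (hfB b (Subgroup.mem_subgroupOf.1 hb) h)

section ind

variable {T : Type} {Λ : SimpleGraph T} {A : Type} [Group A] {η : MulAut A}

/-- `Γ` is the mapping torus of the diagonal automorphism `η` of the graph product with equal vertex
groups `A`: the homomorphisms `vx w` are the inclusions of the vertex groups, `st` is the stable
letter -/
structure IsGG (Λ : SimpleGraph T) (η : MulAut A) {Γ : Type} [Group Γ] (vx : T → A →* Γ) (st : Γ) :
    Prop where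
  conj : ∀ w a, st * vx w a * st⁻¹ = vx w (η a)
  comm : ∀ v w, Λ.Adj v w → ∀ a b, vx v a * vx w b = vx w b * vx v a
  lift : ∀ (H : Type) [Group H] (F : T → A →* H) (s : H),
    (∀ v w, Λ.Adj v w → ∀ a b, F v a * F w b = F w b * F v a) →
    (∀ w a, F w (η a) = s * F w a * s⁻¹) →
    ∃ h : Γ →* H, (∀ w a, h (vx w a) = F w a) ∧ h st = s
  gen : Subgroup.closure ({x | ∃ w, ∃ a, x = vx w a} ∪ {st}) = ⊤

theorem isGG (Λ : SimpleGraph T) (η : MulAut A) :
    IsGG Λ η (fun w => (il (gmap (Λ := Λ) 1 one_adj η)).comp (GrP.of Λ (fun _ => A) w))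
      (tt (gmap (Λ := Λ) 1 one_adj η)) where
  conj w a := by
    have := tt_conj (η := gmap (Λ := Λ) 1 one_adj η) (GrP.of Λ (fun _ => A) w a)
    rw [gmap_of] at this
    exact this
  comm v w h a b := by
    simp only [MonoidHom.comp_apply]
    rw [← map_mul, of_comm h, map_mul]
  lift H _ F s hF hs := by
    have h0 : ∀ x, (glift F hF) (gmap (Λ := Λ) 1 one_adj η x) = s * (glift F hF) x * s⁻¹ := by
      intro x
      have h1 : (glift F hF).comp (gmap (Λ := Λ) 1 one_adj η).toMonoidHom =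
          (MulAut.conj s).toMonoidHom.comp (glift F hF) := by
        refine ghom_ext fun v a => ?_
        show (glift F hF) (gmap (Λ := Λ) 1 one_adj η (GrP.of Λ (fun _ => A) v a)) =
          s * (glift F hF) (GrP.of Λ (fun _ => A) v a) * s⁻¹
        rw [gmap_of, glift_of, glift_of]
        exact hs v a
      exact DFunLike.congr_fun h1 x
    refine ⟨mtLift (glift F hF) s h0, fun w a => ?_, mtLift_tt _ _ _⟩
    show mtLift _ _ _ (il _ _) = _
    rw [mtLift_il, glift_of]
  gen := by
    rw [eq_top_iff]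
    intro x _
    obtain ⟨S, hS⟩ : ∃ S : Set (MT (GrP Λ (fun _ => A)) (gmap (Λ := Λ) 1 one_adj η)),
      S = {x | ∃ w, ∃ a, x = ((il (gmap (Λ := Λ) 1 one_adj η)).comp
          (GrP.of Λ (fun _ => A) w)) a} ∪ {tt (gmap (Λ := Λ) 1 one_adj η)} := ⟨_, rfl⟩
    rw [← hS]
    have h3 : tt (gmap (Λ := Λ) 1 one_adj η) ∈ Subgroup.closure S :=
      Subgroup.subset_closure (by rw [hS]; exact Or.inr rfl)
    rw [mt_form x]
    refine mul_mem ?_ (Subgroup.zpow_mem _ h3 _)
    have h2 : ∀ y : GrP Λ (fun _ => A), il (gmap (Λ := Λ) 1 one_adj η) y ∈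
        Subgroup.closure S := by
      intro y
      induction y using QuotientGroup.induction_on with
      | H z =>
        induction z using Monoid.CoprodI.induction_on with
        | one =>
          rw [QuotientGroup.mk_one, map_one]
          exact one_mem _
        | of w a => exact Subgroup.subset_closure (by rw [hS]; exact Or.inl ⟨w, a, rfl⟩)
        | mul x y hx hy =>
          rw [QuotientGroup.mk_mul, map_mul]
          exact mul_mem hx hy
    exact h2 _

variable {Γ : Type} [Group Γ] {vx : T → A →* Γ} {st : Γ}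

/-- the subgroup generated by the vertex groups in `X` and the stable letter -/
def GX (vx : T → A →* Γ) (st : Γ) (X : Set T) : Subgroup Γ :=
  Subgroup.closure ({x | ∃ w ∈ X, ∃ a, x = vx w a} ∪ {st})

theorem vx_mem {X : Set T} {w : T} (hw : w ∈ X) (a : A) : vx w a ∈ GX vx st X :=
  Subgroup.subset_closure (Or.inl ⟨w, hw, a, rfl⟩)

theorem st_mem (X : Set T) : st ∈ GX vx st X := Subgroup.subset_closure (Or.inr rfl)

theorem GX_le {X : Set T} {S : Subgroup Γ} (h1 : ∀ w ∈ X, ∀ a, vx w a ∈ S)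
    (h2 : st ∈ S) : GX vx st X ≤ S := by
  rw [GX, Subgroup.closure_le]
  rintro x (⟨w, hw, a, rfl⟩ | rfl)
  · exact h1 w hw a
  · exact h2

theorem GX_mono {X Y : Set T} (h : X ⊆ Y) : GX vx st X ≤ GX vx st Y :=
  GX_le (fun _ hw a => vx_mem (h hw) a) (st_mem Y)

theorem GX_sup (X Y : Set T) : GX vx st X ⊔ GX vx st Y = GX vx st (X ∪ Y) := by
  apply le_antisymm
  · exact sup_le (GX_mono Set.subset_union_left) (GX_mono Set.subset_union_right)
  · refine GX_le (fun w hw a => ?_) (Subgroup.mem_sup_left (st_mem X))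
    rcases hw with hw | hw
    · exact Subgroup.mem_sup_left (vx_mem hw a)
    · exact Subgroup.mem_sup_right (vx_mem hw a)

/-- two homomorphisms on `GX` agree if they agree on the generators -/
theorem GX_ext {X : Set T} {H : Type} [Group H] (f g : GX vx st X →* H)
    (h1 : ∀ w (hw : w ∈ X) a, f ⟨vx w a, vx_mem hw a⟩ = g ⟨vx w a, vx_mem hw a⟩)
    (h2 : f ⟨st, st_mem X⟩ = g ⟨st, st_mem X⟩) : f = g := by
  have key : GX vx st X ≤ (f.eqLocus g).map (GX vx st X).subtype :=
    GX_le (fun w hw a => ⟨⟨vx w a, vx_mem hw a⟩, h1 w hw a, rfl⟩)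
      ⟨⟨st, st_mem X⟩, h2, rfl⟩
  ext x
  obtain ⟨y, hy, hyx⟩ := key x.2
  have : y = x := Subtype.ext hyx
  rw [← this]
  exact hy

/-- normal form in the subgroup of the star of `v` -/
theorem star_form (hG : IsGG Λ η vx st) {Y : Set T} {v : T} (hY : ∀ w ∈ Y, Λ.Adj v w) {x : Γ}
    (hx : x ∈ GX vx st (Y ∪ {v})) : ∃ y ∈ GX vx st Y, ∃ a : A, x = y * vx v a := by
  rw [GX] at hx
  induction hx using Subgroup.closure_induction_right with
  | one => exact ⟨1, one_mem _, 1, by simp⟩
  | mul_right x hx y hy ih =>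
    obtain ⟨z, hz, a, rfl⟩ := ih
    rcases hy with ⟨w, hw, b, rfl⟩ | rfl
    · rcases hw with hw | hw
      · refine ⟨z * vx w b, mul_mem hz (vx_mem hw b), a, ?_⟩
        rw [mul_assoc, mul_assoc, hG.comm v w (hY w hw)]
      · rw [Set.mem_singleton_iff] at hw
        subst hw
        exact ⟨z, hz, a * b, by rw [map_mul, mul_assoc]⟩
    · refine ⟨z * y, mul_mem hz (st_mem Y), η.symm a, ?_⟩
      have h := hG.conj v (η.symm a)
      rw [MulEquiv.apply_symm_apply] at h
      rw [← h]
      group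
  | mul_inv_cancel x hx y hy ih =>
    obtain ⟨z, hz, a, rfl⟩ := ih
    rcases hy with ⟨w, hw, b, rfl⟩ | rfl
    · rcases hw with hw | hw
      · refine ⟨z * vx w b⁻¹, mul_mem hz (vx_mem hw _), a, ?_⟩
        rw [← map_inv, mul_assoc, mul_assoc, hG.comm v w (hY w hw) a b⁻¹]
      · rw [Set.mem_singleton_iff] at hw
        subst hw
        exact ⟨z, hz, a * b⁻¹, by rw [map_mul, map_inv, mul_assoc]⟩
    · refine ⟨z * y⁻¹, mul_mem hz (inv_mem (st_mem Y)), η a, ?_⟩
      rw [← hG.conj v a]
      group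

/-- the retraction which kills the vertex groups outside of `X` -/
theorem ex_rt (hG : IsGG Λ η vx st) (X : Set T) : ∃ r : Γ →* Γ,
    (∀ w ∈ X, ∀ a, r (vx w a) = vx w a) ∧ (∀ w ∉ X, ∀ a, r (vx w a) = 1) ∧ r st = st ∧
    (∀ x, r x ∈ GX vx st X) ∧ ∀ x ∈ GX vx st X, r x = x := by
  classical
  obtain ⟨r, h1, h2⟩ := hG.lift Γ (fun w => if w ∈ X then vx w else 1) st
    (fun v w h a b => by
      by_cases hv : v ∈ X
      · by_cases hw : w ∈ X
        · simp only [if_pos hv, if_pos hw]
          exact hG.comm v w h a b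
        · simp only [if_neg hw, MonoidHom.one_apply, mul_one, one_mul]
      · simp only [if_neg hv, MonoidHom.one_apply, mul_one, one_mul])
    (fun w a => by
      by_cases hw : w ∈ X
      · simp only [if_pos hw]
        exact (hG.conj w a).symm
      · simp only [if_neg hw, MonoidHom.one_apply]
        group)
  have h3 : ∀ w ∈ X, ∀ a, r (vx w a) = vx w a := fun w hw a => by rw [h1, if_pos hw]
  have h4 : ∀ w ∉ X, ∀ a, r (vx w a) = 1 := fun w hw a => by
    rw [h1, if_neg hw, MonoidHom.one_apply]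
  refine ⟨r, h3, h4, h2, fun x => ?_, fun x hx => ?_⟩
  · have h5 : (⊤ : Subgroup Γ) ≤ (GX vx st X).comap r := by
      rw [← hG.gen, Subgroup.closure_le]
      rintro y (⟨w, a, rfl⟩ | rfl)
      · show r (vx w a) ∈ GX vx st X
        by_cases hw : w ∈ X
        · rw [h3 w hw]
          exact vx_mem hw a
        · rw [h4 w hw]
          exact one_mem _
      · show r y ∈ GX vx y X
        rw [h2]
        exact st_mem X
    exact h5 (Subgroup.mem_top x)
  · have h : GX vx st X ≤ r.eqLocus (MonoidHom.id _) := GX_le h3 h2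
    exact h hx

/-- the projection to one vertex group -/
theorem ex_kp (hG : IsGG Λ η vx st) (v : T) : ∃ k : Γ →* MT A η, ∀ a, k (vx v a) = il η a := by
  classical
  obtain ⟨k, h1, -⟩ := hG.lift (MT A η) (fun w => if w = v then il η else 1) (tt η)
    (fun u w h a b => by
      by_cases hu : u = v
      · by_cases hw : w = v
        · exact absurd (hu.trans hw.symm) h.ne
        · simp only [if_neg hw, MonoidHom.one_apply, mul_one, one_mul]
      · simp only [if_neg hu, MonoidHom.one_apply, mul_one, one_mul])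
    (fun w a => by
      by_cases hw : w = v
      · simp only [if_pos hw]
        exact (tt_conj a).symm
      · simp only [if_neg hw, MonoidHom.one_apply]
        group)
  exact ⟨k, fun a => by rw [h1, if_pos rfl]⟩

/-- the universal property of the amalgam of the subgroups of `X` and of the star of `v` -/
theorem univ_star (hG : IsGG Λ η vx st) {X Y : Set T} {v : T} (hv : v ∉ X) (hYX : Y ⊆ X)
    (hY : ∀ w ∈ X, Λ.Adj v w → w ∈ Y) (H : Type) [Group H] (p : GX vx st X →* H)
    (q : GX vx st (Y ∪ {v}) →* H)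
    (hpq : ∀ (c : Γ) (hc : c ∈ GX vx st Y), p ⟨c, GX_mono hYX hc⟩ =
      q ⟨c, GX_mono Set.subset_union_left hc⟩) :
    ∃ h : Γ →* H, (∀ a : GX vx st X, h a = p a) ∧ ∀ b : GX vx st (Y ∪ {v}), h b = q b := by
  classical
  have mY : ∀ w, w ∈ Y → w ∈ Y ∪ {v} := fun w hw => Set.mem_union_left _ hw
  have mv : v ∈ Y ∪ {v} := Set.mem_union_right _ rfl
  have hcY : ∀ w (hw : w ∈ Y) (a : A), p ⟨vx w a, vx_mem (hYX hw) a⟩ =
      q ⟨vx w a, vx_mem (mY w hw) a⟩ := fun w hw a => hpq (vx w a) (vx_mem hw a)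
  have hst : p ⟨st, st_mem X⟩ = q ⟨st, st_mem (Y ∪ {v})⟩ := hpq st (st_mem Y)
  let px : ∀ w, w ∈ X → A →* H := fun w hw =>
    p.comp ((vx w).codRestrict (GX vx st X) (fun a => vx_mem hw a))
  let qx : A →* H :=
    q.comp ((vx v).codRestrict (GX vx st (Y ∪ {v})) (fun a => vx_mem mv a))
  obtain ⟨F, hFdef⟩ : ∃ F : T → A →* H,
    F = fun w => if hw : w ∈ X then px w hw else if w = v then qx else 1 := ⟨_, rfl⟩
  have hFX : ∀ w (hw : w ∈ X) a, F w a = p ⟨vx w a, vx_mem hw a⟩ := by
    intro w hw a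
    simp only [hFdef, dif_pos hw]
    rfl
  have hFv : ∀ a, F v a = q ⟨vx v a, vx_mem mv a⟩ := by
    intro a
    simp only [hFdef, dif_neg hv, if_true]
    rfl
  have hF0 : ∀ w, w ∉ X → w ≠ v → F w = 1 := by
    intro w hw hwv
    simp only [hFdef, dif_neg hw, if_neg hwv]
  have hFvX : ∀ w (hw : w ∈ X) (h : Λ.Adj v w) (a b : A), F v a * F w b = F w b * F v a := by
    intro w hw h a b
    rw [hFv, hFX w hw, hcY w (hY w hw h), ← map_mul, ← map_mul]
    congr 1
    exact Subtype.ext (hG.comm v w h a b)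
  have hFc : ∀ u w, Λ.Adj u w → ∀ a b, F u a * F w b = F w b * F u a := by
    intro u w h a b
    by_cases hu : u ∈ X
    · by_cases hw : w ∈ X
      · rw [hFX u hu, hFX w hw, ← map_mul, ← map_mul]
        congr 1
        exact Subtype.ext (hG.comm u w h a b)
      · by_cases hwv : w = v
        · subst hwv
          exact (hFvX u hu h.symm b a).symm
        · rw [hF0 w hw hwv]
          simp
    · by_cases huv : u = v
      · subst huv
        by_cases hw : w ∈ X
        · exact hFvX w hw h a b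
        · rw [hF0 w hw h.ne']
          simp
      · rw [hF0 u hu huv]
        simp
  have hFs : ∀ w a, F w (η a) = p ⟨st, st_mem X⟩ * F w a * (p ⟨st, st_mem X⟩)⁻¹ := by
    intro w a
    by_cases hw : w ∈ X
    · rw [hFX w hw, hFX w hw, ← map_inv, ← map_mul, ← map_mul]
      congr 1
      exact Subtype.ext (hG.conj w a).symm
    · by_cases hwv : w = v
      · subst hwv
        rw [hFv, hFv, hst, ← map_inv, ← map_mul, ← map_mul]
        congr 1
        exact Subtype.ext (hG.conj w a).symm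
      · rw [hF0 w hw hwv]
        simp
  obtain ⟨h, h1, h2⟩ := hG.lift H F (p ⟨st, st_mem X⟩) hFc hFs
  refine ⟨h, fun a => ?_, fun b => ?_⟩
  · have h3 : h.comp (GX vx st X).subtype = p := by
      refine GX_ext _ _ (fun w hw a => ?_) ?_
      · show h (vx w a) = _
        rw [h1, hFX w hw]
      · exact h2
    exact DFunLike.congr_fun h3 a
  · have h3 : h.comp (GX vx st (Y ∪ {v})).subtype = q := by
      refine GX_ext _ _ (fun w hw a => ?_) ?_
      · show h (vx w a) = _
        rw [h1]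
        rcases hw with hw | hw
        · rw [hFX w (hYX hw), hcY w hw]
        · rw [Set.mem_singleton_iff] at hw
          subst hw
          rw [hFv]
      · exact h2.trans hst
    exact DFunLike.congr_fun h3 b

/-- adding a vertex -/
theorem add_vertex (hC : ClosedE C) (hG : IsGG Λ η vx st) (hA : C (MT A η)) (X : Set T) (v : T)
    (hv : v ∉ X) (hX : C ↥(GX vx st X)) : C ↥(GX vx st (X ∪ {v})) := by
  obtain ⟨Y, hYdef⟩ : ∃ Y : Set T, Y = {w | w ∈ X ∧ Λ.Adj v w} := ⟨_, rfl⟩
  have hYX : Y ⊆ X := by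
    rw [hYdef]
    exact fun w hw => hw.1
  have hYv : ∀ w ∈ Y, Λ.Adj v w := by
    rw [hYdef]
    exact fun w hw => hw.2
  have hYm : ∀ w ∈ X, Λ.Adj v w → w ∈ Y := by
    rw [hYdef]
    exact fun w hw h => ⟨hw, h⟩
  have hun : GX vx st X ⊔ GX vx st (Y ∪ {v}) = GX vx st (X ∪ {v}) := by
    rw [GX_sup]
    congr 1
    ext w
    constructor
    · rintro (h | h | h)
      · exact Or.inl h
      · exact Or.inl (hYX h)
      · exact Or.inr h
    · rintro (h | h)
      · exact Or.inl h
      · exact Or.inr (Or.inr h)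
  rw [← hun]
  obtain ⟨r, r1, r2, -, r4, r5⟩ := ex_rt hG X
  obtain ⟨k, hk⟩ := ex_kp hG v
  refine am_in hC (GX vx st X) (GX vx st (Y ∪ {v})) (GX vx st Y) (GX_mono hYX)
    (GX_mono Set.subset_union_left) (univ_star hG hv hYX hYm)
    ((r.codRestrict (GX vx st X) r4).prod k) ?_ ?_ (hC.base.prod _ _ hX hA)
  · intro a ha h
    have h1 : r a = 1 := congrArg Subtype.val (congrArg Prod.fst h)
    rw [r5 a ha] at h1
    exact h1
  · intro b hb h
    have h1 : r b = 1 := congrArg Subtype.val (congrArg Prod.fst h)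
    have h2 : k b = 1 := congrArg Prod.snd h
    obtain ⟨y, hy, a, rfl⟩ := star_form hG hYv hb
    rw [map_mul, r2 v hv, mul_one, r5 y (GX_mono hYX hy)] at h1
    subst h1
    rw [one_mul, hk] at h2
    have h3 : a = 1 := SemidirectProduct.inl_injective (h2.trans (map_one _).symm)
    rw [h3, map_one, mul_one]

/-- the mapping torus of the diagonal automorphism of a finite graph product -/
theorem C_isGG (hC : ClosedE C) [Finite T] (hG : IsGG Λ η vx st) (hA : C (MT A η)) : C Γ := by
  classical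
  have h : ∀ X : Set T, X.Finite → C ↥(GX vx st X) := by
    intro X hX
    induction X, hX using Set.Finite.induction_on with
    | empty =>
      have h1 : GX vx st (∅ : Set T) = Subgroup.zpowers st := by
        apply le_antisymm
        · exact GX_le (fun w hw => absurd hw (Set.notMem_empty w)) (Subgroup.mem_zpowers _)
        · rw [Subgroup.zpowers_le]
          exact st_mem _
      rw [h1]
      exact C_cyc hC.base _
    | @insert a s ha _ ih =>
      have := add_vertex hC hG hA s a ha ih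
      rwa [Set.union_singleton] at this
  have h1 := h Set.univ Set.finite_univ
  have h2 : GX vx st (Set.univ : Set T) = ⊤ := by
    rw [← hG.gen, GX]
    congr 2
    ext x
    simp
  rw [h2] at h1
  exact C_equiv hC.base Subgroup.topEquiv.symm h1

/-- the mapping torus of an automorphism which permutes the vertex groups of a finite graph product -/
theorem C_mtg (hC : ClosedE C) [Finite T] (τ : Equiv.Perm T)
    (hτ : ∀ x y, Λ.Adj (τ x) (τ y) ↔ Λ.Adj x y) (hA : ∀ k : ℕ, C (MT A (η ^ k))) :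
    C (MT (GrP Λ (fun _ => A)) (gmap (Λ := Λ) τ hτ η)) := by
  have hk : 0 < orderOf τ := orderOf_pos τ
  refine mt_pow hC.base hk ?_
  rw [gmap_pow_one τ hτ η _ (pow_orderOf_eq_one τ)]
  exact C_isGG hC (isGG Λ (η ^ orderOf τ)) (hA _)

end ind

end Pool.Agent.N77.GP
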