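import Pool.Agent.N77.GP.Eppa
import Pool.Agent.N77.GP.Ind
import Pool.Agent.N77.GP.Block
import Pool.Agent.R779.FJ.Col

/-!
# Extensions by graph products
-/

set_option autoImplicit false

namespace Pool.Agent.N77.GP

open Pool.Agent.Y110.FJ
open Pool.Agent.Y462.SS (Closed)

/-- the subgroup `N` of `G` is the (internal) graph product of its subgroups `K v` over the graph
`Λ`: the subgroups of adjacent vertices commute, the subgroups `K v` generate `N`, and any family of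
homomorphisms `F v` from the `K v` to a group `H` such that the images of `F v` and `F w` commute for
adjacent `v`, `w` extends to a homomorphism from `N` to `H` -/
structure IsGraphProduct {G V : Type} [Group G] (Λ : SimpleGraph V) (K : V → Subgroup G)
    (N : Subgroup G) : Prop where
  comm : ∀ v w, Λ.Adj v w → ∀ x ∈ K v, ∀ y ∈ K w, x * y = y * x
  sup : ⨆ v, K v = N
  lift : ∀ (H : Type) [Group H] (F : ∀ v, K v →* H),
    (∀ v w, Λ.Adj v w → ∀ (a : K v) (b : K w), F v a * F w b = F w b * F v a) →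
    ∃ f : N →* H, ∀ v (x : K v) (hx : (x : G) ∈ N), f ⟨x, hx⟩ = F v x

section main

variable {G V : Type} [Group G] {Λ : SimpleGraph V} {K : V → Subgroup G} {N : Subgroup G}

/-- the subgroup generated by some of the vertex groups -/
def NS (K : V → Subgroup G) (S : Set V) : Subgroup G := ⨆ v, ⨆ _ : v ∈ S, K v

theorem le_NS {S : Set V} {v : V} (hv : v ∈ S) : K v ≤ NS K S := le_iSup₂_of_le v hv le_rfl

theorem NS_le {S : Set V} {L : Subgroup G} (h : ∀ v ∈ S, K v ≤ L) : NS K S ≤ L := iSup₂_le h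

theorem NS_mono {S S' : Set V} (h : S ⊆ S') : NS K S ≤ NS K S' := NS_le fun _ hv => le_NS (h hv)

theorem K_le (h : IsGraphProduct Λ K N) (v : V) : K v ≤ N := h.sup ▸ le_iSup K v

/-- finite supports -/
theorem ex_supp (h : IsGraphProduct Λ K N) {x : G} (hx : x ∈ N) : ∃ S : Set V, S.Finite ∧ x ∈ NS K S := by
  rw [← h.sup] at hx
  induction hx using Subgroup.iSup_induction' with
  | hp j x hx =>
    exact ⟨{j}, Set.finite_singleton j, (le_NS (Set.mem_singleton j) : K j ≤ NS K {j}) hx⟩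
  | h1 => exact ⟨∅, Set.finite_empty, one_mem _⟩
  | hmul x y _ _ hx hy =>
    obtain ⟨J, hJ, hx⟩ := hx
    obtain ⟨J', hJ', hy⟩ := hy
    have h3 : x ∈ NS K (J ∪ J') := NS_mono (Set.subset_union_left : J ⊆ J ∪ J') hx
    have h4 : y ∈ NS K (J ∪ J') := NS_mono (Set.subset_union_right : J' ⊆ J ∪ J') hy
    exact ⟨J ∪ J', hJ.union hJ', (NS K (J ∪ J')).mul_mem h3 h4⟩

theorem ex_supp_fin (h : IsGraphProduct Λ K N) {E : Set G} (hE : E.Finite) (hEN : E ⊆ N) :
    ∃ S : Set V, S.Finite ∧ ∀ x ∈ E, x ∈ NS K S := by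
  induction E, hE using Set.Finite.induction_on with
  | empty => exact ⟨∅, Set.finite_empty, fun x hx => absurd hx (Set.notMem_empty x)⟩
  | @insert a s _ _ ih =>
    obtain ⟨S, hS, h1⟩ := ih (fun x hx => hEN (Set.mem_insert_of_mem _ hx))
    obtain ⟨S', hS', h2⟩ := ex_supp h (hEN (Set.mem_insert _ _))
    refine ⟨S ∪ S', hS.union hS', fun x hx => ?_⟩
    rcases hx with rfl | hx
    · exact NS_mono (Set.subset_union_right : S' ⊆ S ∪ S') h2
    · exact NS_mono (Set.subset_union_left : S ⊆ S ∪ S') (h1 x hx)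

/-- the universal property of `N` -/
theorem ex_lift (h : IsGraphProduct Λ K N) {H : Type} [Group H] (F : ∀ v, K v →* H)
    (hF : ∀ v w, Λ.Adj v w → ∀ (a : K v) (b : K w), F v a * F w b = F w b * F v a) :
    ∃ f : N →* H, ∀ v (x : K v), f ⟨x, K_le h v x.2⟩ = F v x := by
  obtain ⟨f, hf⟩ := h.lift H F hF
  exact ⟨f, fun v x => hf v x _⟩

/-- agreement on vertex groups -/
theorem hom_agree (h : IsGraphProduct Λ K N) {H : Type} [Group H] (f g : N →* H) {S : Set V}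
    (hfg : ∀ v ∈ S, ∀ x : K v, f ⟨x, K_le h v x.2⟩ = g ⟨x, K_le h v x.2⟩) (x : N)
    (hx : (x : G) ∈ NS K S) : f x = g x := by
  have key : NS K S ≤ (f.eqLocus g).map N.subtype :=
    NS_le fun v hv y hy => ⟨⟨y, K_le h v hy⟩, hfg v hv ⟨y, hy⟩, rfl⟩
  obtain ⟨y, hy, hyx⟩ := key hx
  have : y = x := Subtype.ext hyx
  rw [← this]
  exact hy

variable {C : ∀ (G : Type) [Group G], Prop}

theorem mt_pow' {A : Type} [Group A] {η : MulAut A} (hC : Closed C) (h : C (MT A η)) (k : ℕ) :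
    C (MT A (η ^ k)) :=
  mt_of hC h (il η) SemidirectProduct.inl_injective (tt η ^ k) (fun a => by
    have := zpow_conj (η := η) (il η) (tt η) (fun a => (tt_conj a).symm) k a
    simpa using this)

/-- the realization of a partial conjugation -/
theorem realize (hC : ClosedE C) [N.Normal] (h : IsGraphProduct Λ K N) (m : G) (σ : Equiv.Perm V)
    (hσ : ∀ v w, Λ.Adj (σ v) (σ w) ↔ Λ.Adj v w)
    (hK0 : ∀ v, C (K v))
    (hK : ∀ v (k : ℕ), 0 < k → (σ ^ k) v = v → C ↥(K v ⊔ Subgroup.zpowers (m ^ k)))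
    (hc : ∀ v x, x ∈ K v → m * x * m⁻¹ ∈ K (σ v))
    (hc' : ∀ v x, x ∈ K (σ v) → m⁻¹ * x * m ∈ K v) (J : Set V) (hJ : J.Finite) :
    ∃ (P : Type) (_ : Group P) (f : N →* P) (t : P), C P ∧
      (∀ x : N, (x : G) ∈ NS K (J ∪ σ '' J) → f x = 1 → x = 1) ∧
      ∀ x y : N, (x : G) ∈ NS K J → (y : G) = m * x * m⁻¹ → f y = t * f x * t⁻¹ := by
  classical
  obtain ⟨J', hJ'⟩ : ∃ J' : Set V, J' = J ∪ σ '' J := ⟨_, rfl⟩
  have hJ'f : J'.Finite := by
    rw [hJ']
    exact hJ.union (hJ.image _)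
  have hJJ' : ∀ v ∈ J, v ∈ J' := fun v hv => by rw [hJ']; exact Or.inl hv
  have hσJ : ∀ v ∈ J, σ v ∈ J' := fun v hv => by rw [hJ']; exact Or.inr ⟨v, hv, rfl⟩
  have hfin : Finite J' := hJ'f
  obtain ⟨T, _, Λ', ι, τ, hι, hιadj, hτ, hτι⟩ := eppa J' (Λ.comap Subtype.val)
    {x | σ x.1 ∈ J'} (fun x => ⟨σ x.1.1, x.2⟩)
    (fun x y hxy => Subtype.ext (Subtype.ext (σ.injective (congrArg Subtype.val hxy))))
    (fun x y => hσ x.1.1 y.1.1)
  obtain ⟨B, _, θ, ε, ρ, hB, hθ, hρ⟩ := blocks hC.base hK0 hK hc hc' J' hJ'f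
  -- the homomorphism to the finite graph product
  obtain ⟨F, hF1, hF2⟩ : ∃ F : ∀ v, K v →* GrP Λ' (fun _ => B),
      (∀ v (hv : v ∈ J') x, F v x = GrP.of Λ' (fun _ => B) (ι ⟨v, hv⟩) (ε v x)) ∧
      ∀ v, v ∉ J' → F v = 1 :=
    ⟨fun v => if hv : v ∈ J' then (GrP.of Λ' (fun _ => B) (ι ⟨v, hv⟩)).comp (ε v) else 1,
      fun v hv x => by simp only [dif_pos hv, MonoidHom.comp_apply],
      fun v hv => by simp only [dif_neg hv]⟩
  have hFc : ∀ v w, Λ.Adj v w → ∀ (a : K v) (b : K w), F v a * F w b = F w b * F v a := by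
    intro v w hvw a b
    by_cases hv : v ∈ J'
    · by_cases hw : w ∈ J'
      · rw [hF1 v hv, hF1 w hw]
        exact of_comm ((hιadj ⟨v, hv⟩ ⟨w, hw⟩).2 hvw) _ _
      · rw [hF2 w hw, MonoidHom.one_apply, mul_one, one_mul]
    · rw [hF2 v hv, MonoidHom.one_apply, mul_one, one_mul]
  obtain ⟨r, hr⟩ := ex_lift h F hFc
  -- the homomorphism back
  obtain ⟨F', hF1', hF2'⟩ : ∃ F' : T → B →* G,
      (∀ v (hv : v ∈ J') b, F' (ι ⟨v, hv⟩) b = ρ v b) ∧
      ∀ w, (¬ ∃ v : J', ι v = w) → F' w = 1 := by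
    refine ⟨fun w => if hw : ∃ v : J', ι v = w then
      (K hw.choose.1).subtype.comp (ρ hw.choose.1) else 1, fun v hv b => ?_, fun w hw => ?_⟩
    · have hw : ∃ v' : J', ι v' = ι ⟨v, hv⟩ := ⟨_, rfl⟩
      simp only [dif_pos hw, MonoidHom.comp_apply]
      have h1 : hw.choose = ⟨v, hv⟩ := hι hw.choose_spec
      rw [h1]
      rfl
    · simp only [dif_neg hw]
  have hFc' : ∀ w w', Λ'.Adj w w' → ∀ a b : B, F' w a * F' w' b = F' w' b * F' w a := by
    intro w w' hww a b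
    by_cases hw : ∃ v : J', ι v = w
    · by_cases hw' : ∃ v : J', ι v = w'
      · obtain ⟨⟨v, hv⟩, rfl⟩ := hw
        obtain ⟨⟨v', hv'⟩, rfl⟩ := hw'
        rw [hF1' v hv, hF1' v' hv']
        exact h.comm v v' ((hιadj _ _).1 hww) _ (ρ v a).2 _ (ρ v' b).2
      · rw [hF2' w' hw', MonoidHom.one_apply, mul_one, one_mul]
    · rw [hF2' w hw, MonoidHom.one_apply, mul_one, one_mul]
  refine ⟨MT (GrP Λ' (fun _ => B)) (gmap (Λ := Λ') τ hτ θ), inferInstance,
    (il (gmap (Λ := Λ') τ hτ θ)).comp r, tt (gmap (Λ := Λ') τ hτ θ),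
    C_mtg hC τ hτ (fun k => mt_pow' hC.base hB k), ?_, ?_⟩
  · intro x hx hx1
    have h1 : r x = 1 := SemidirectProduct.inl_injective (hx1.trans (map_one _).symm)
    have h2 : ((glift F' hFc').comp r) x = N.subtype x := by
      refine hom_agree h _ _ (fun v hv y => ?_) x hx
      rw [← hJ'] at hv
      show (glift F' hFc') (r ⟨y, _⟩) = y
      rw [hr, hF1 v hv, glift_of, hF1' v hv, hρ v hv]
    rw [MonoidHom.comp_apply, h1, map_one] at h2
    exact Subtype.ext h2.symm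
  · intro x y hx hy
    have h0 : y = (MulAut.conjNormal (H := N) m) x := Subtype.ext hy
    show il _ (r y) = tt _ * il _ (r x) * (tt _)⁻¹
    rw [tt_conj]
    congr 1
    rw [h0]
    have h2 : (r.comp (MulAut.conjNormal (H := N) m).toMonoidHom) x =
        ((gmap (Λ := Λ') τ hτ θ).toMonoidHom.comp r) x := by
      refine hom_agree h _ _ (fun v hv z => ?_) x hx
      show r (MulAut.conjNormal (H := N) m ⟨z, _⟩) = gmap (Λ := Λ') τ hτ θ (r ⟨z, _⟩)
      have h3 : MulAut.conjNormal (H := N) m ⟨z, K_le h v z.2⟩ =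
          ⟨(⟨m * z * m⁻¹, hc v z z.2⟩ : K (σ v)), K_le h (σ v) (hc v z z.2)⟩ := rfl
      rw [h3, hr, hr, hF1 v (hJJ' v hv), hF1 (σ v) (hσJ v hv), gmap_of, hθ]
      have h4 := hτι ⟨⟨v, hJJ' v hv⟩, hσJ v hv⟩
      exact congrArg (fun w => GrP.of Λ' (fun _ => B) w _) h4.symm
    exact h2

/-- **extensions by graph products** -/
theorem gp_main (hC : ClosedE C) (N M : Subgroup G) [N.Normal] [MulAction M V]
    (Λ : SimpleGraph V) (K : V → Subgroup G) (h : IsGraphProduct Λ K N) (hNM : N ⊔ M = ⊤)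
    (hadj : ∀ (m : M) v w, Λ.Adj v w → Λ.Adj (m • v) (m • w))
    (hconj : ∀ (m : M) v, ∀ x ∈ K v, (m : G) * x * (m : G)⁻¹ ∈ K (m • v))
    (hK : ∀ (m : M) v, m • v = v → C ↥(K v ⊔ Subgroup.zpowers (m : G)))
    (hQ : C (G ⧸ N)) : C G := by
  refine Pool.Agent.R779.FJ.t_crit Pool.Agent.Y529.FJ.t_ext
    (Pool.Agent.Y961.FJ.t_perm Pool.Agent.Y529.FJ.t_ext) C hC G N hQ fun g E hE hEN => ?_
  have hg : g ∈ N ⊔ M := by
    rw [hNM]
    exact Subgroup.mem_top g
  rw [Subgroup.mem_sup_of_normal_left] at hg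
  obtain ⟨n, hn, m, hm, hnm⟩ := hg
  obtain ⟨σ, hσdef⟩ : ∃ σ : Equiv.Perm V, σ = MulAction.toPerm (⟨m, hm⟩ : M) := ⟨_, rfl⟩
  have hσ1 : ∀ v, σ v = (⟨m, hm⟩ : M) • v := fun v => by rw [hσdef]; rfl
  have hσ : ∀ v w, Λ.Adj (σ v) (σ w) ↔ Λ.Adj v w := by
    intro v w
    rw [hσ1, hσ1]
    constructor
    · intro h1
      have h2 := hadj (⟨m, hm⟩ : M)⁻¹ _ _ h1
      rwa [inv_smul_smul, inv_smul_smul] at h2
    · exact hadj _ v w
  have hK0 : ∀ v, C (K v) := fun v =>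
    hC.base.of_injective _ _ (Subgroup.inclusion (le_sup_left : K v ≤ K v ⊔ Subgroup.zpowers _))
      (Subgroup.inclusion_injective _) (hK 1 v (one_smul M v))
  have hKk : ∀ v (k : ℕ), 0 < k → (σ ^ k) v = v → C ↥(K v ⊔ Subgroup.zpowers (m ^ k)) := by
    intro v k _ hv
    have h1 := hK ((⟨m, hm⟩ : M) ^ k) v (by
      rw [hσdef] at hv
      rw [← MulAction.toPermHom_apply, ← map_pow] at hv
      exact hv)
    exact h1
  have hc : ∀ v x, x ∈ K v → m * x * m⁻¹ ∈ K (σ v) := by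
    intro v x hx
    rw [hσ1]
    exact hconj ⟨m, hm⟩ v x hx
  have hc' : ∀ v x, x ∈ K (σ v) → m⁻¹ * x * m ∈ K v := by
    intro v x hx
    rw [hσ1] at hx
    have h1 := hconj (⟨m, hm⟩ : M)⁻¹ _ x hx
    rw [inv_smul_smul] at h1
    have h2 : (((⟨m, hm⟩ : M)⁻¹ : M) : G) = m⁻¹ := rfl
    rw [h2, inv_inv] at h1
    exact h1
  obtain ⟨J, hJ, hJE⟩ := ex_supp_fin h (hE.insert n) (Set.insert_subset hn hEN)
  obtain ⟨P, _, f, t, hP, hf, hft⟩ := realize hC h m σ hσ hK0 hKk hc hc' J hJ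
  -- the set generates a subgroup of `N`
  have hmx : ∀ x ∈ NS K J, m * x * m⁻¹ ∈ NS K (J ∪ σ '' J) := by
    have h1 : NS K J ≤ (NS K (J ∪ σ '' J)).comap (MulAut.conj m).toMonoidHom :=
      NS_le fun v hv x hx => by
        have h2 : σ v ∈ J ∪ σ '' J := Set.mem_union_right _ (Set.mem_image_of_mem σ hv)
        exact (le_NS h2 : K (σ v) ≤ NS K (J ∪ σ '' J)) (hc v x hx)
    exact fun x hx => h1 hx
  have hgx : ∀ x ∈ E, g * x * g⁻¹ = n * (m * x * m⁻¹) * n⁻¹ := by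
    intro x _
    rw [← hnm]
    group
  have hle : Subgroup.closure (E ∪ (fun x => g * x * g⁻¹) '' E) ≤ N := by
    rw [Subgroup.closure_le]
    refine Set.union_subset hEN ?_
    rintro _ ⟨x, hx, rfl⟩
    exact Subgroup.Normal.conj_mem inferInstance x (hEN hx) g
  have hsub : J ⊆ J ∪ σ '' J := Set.subset_union_left
  have hnJ : n ∈ NS K (J ∪ σ '' J) := NS_mono hsub (hJE n (Set.mem_insert n E))
  have hle' : Subgroup.closure (E ∪ (fun x => g * x * g⁻¹) '' E) ≤ NS K (J ∪ σ '' J) := by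
    rw [Subgroup.closure_le]
    refine Set.union_subset ?_ ?_
    · intro x hx
      exact NS_mono hsub (hJE x (Set.mem_insert_of_mem n hx))
    · rintro _ ⟨x, hx, rfl⟩
      show g * x * g⁻¹ ∈ NS K (J ∪ σ '' J)
      rw [hgx x hx]
      have h1 := hmx x (hJE x (Set.mem_insert_of_mem n hx))
      exact (NS K _).mul_mem ((NS K _).mul_mem hnJ h1) ((NS K _).inv_mem hnJ)
  refine ⟨P, inferInstance, f.comp (Subgroup.inclusion hle), f ⟨n, hn⟩ * t, hP, ?_, ?_⟩
  · rw [injective_iff_map_eq_one]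
    intro x hx
    have h1 := hf (Subgroup.inclusion hle x) (hle' x.2) hx
    exact Subgroup.inclusion_injective hle (h1.trans (map_one _).symm)
  · intro x y hx hy
    have hxN : (x : G) ∈ N := hEN hx
    have hmN : m * (x : G) * m⁻¹ ∈ N := Subgroup.Normal.conj_mem inferInstance _ hxN m
    have h1 : Subgroup.inclusion hle y = ⟨n, hn⟩ * ⟨m * x * m⁻¹, hmN⟩ * (⟨n, hn⟩ : N)⁻¹ := by
      apply Subtype.ext
      show (y : G) = n * (m * x * m⁻¹) * n⁻¹
      rw [hy, hgx x hx]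
    have h2 := hft (Subgroup.inclusion hle x) ⟨m * x * m⁻¹, hmN⟩
      (hJE x (Set.mem_insert_of_mem n hx)) rfl
    rw [MonoidHom.comp_apply, MonoidHom.comp_apply, h1, map_mul, map_mul, map_inv, h2]
    group

end main

end Pool.Agent.N77.GP
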