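import Mathlib

/-!
# Extension of partial isomorphisms of finite graphs

A partial isomorphism of a finite graph is induced by an automorphism of a larger finite graph (Hrushovski).
-/

set_option autoImplicit false

namespace Pool.Agent.N77.GP

/-- an orientation-like function with `c x y + c y x = 1` exactly for adjacent vertices -/
theorem ex_orient (S : Type) (Λ : SimpleGraph S) :
    ∃ c : S → S → ZMod 2, (∀ x, c x x = 0) ∧ ∀ x y, x ≠ y → (c x y + c y x = 1 ↔ Λ.Adj x y) := by
  classical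
  let r : LinearOrder S := WellOrderingRel.isWellOrder.linearOrder
  refine ⟨fun x y => if Λ.Adj x y ∧ r.lt x y then 1 else 0, fun x => ?_, fun x y hxy => ?_⟩
  · simp
  · rcases lt_trichotomy x y with h | h | h
    · have h' : ¬ (y < x) := not_lt_of_gt h
      by_cases hA : Λ.Adj x y
      · simp [hA, h, h', Λ.adj_comm y x]
      · have hA' : ¬ Λ.Adj y x := fun h => hA h.symm
        simp [hA, hA']
    · exact absurd h hxy
    · have h' : ¬ (x < y) := not_lt_of_gt h
      by_cases hA : Λ.Adj x y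
      · simp [hA, h, h', Λ.adj_comm y x]
      · have hA' : ¬ Λ.Adj y x := fun h => hA h.symm
        simp [hA, hA']

/-- the graph -/
def bigGraph (S : Type) : SimpleGraph (S × (S → ZMod 2)) where
  Adj p q := p.1 ≠ q.1 ∧ p.2 q.1 + q.2 p.1 = 1
  symm := ⟨fun p q h => ⟨h.1.symm, by rw [add_comm]; exact h.2⟩⟩
  loopless := ⟨fun p h => h.1 rfl⟩

theorem eppa (S : Type) [Finite S] (Λ : SimpleGraph S) (D : Set S) (f : D → S)
    (hinj : Function.Injective f) (hadj : ∀ x y : D, Λ.Adj (f x) (f y) ↔ Λ.Adj x y) :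
    ∃ (T : Type) (_ : Finite T) (Λ' : SimpleGraph T) (ι : S → T) (τ : Equiv.Perm T),
      Function.Injective ι ∧ (∀ x y, Λ'.Adj (ι x) (ι y) ↔ Λ.Adj x y) ∧
      (∀ x y, Λ'.Adj (τ x) (τ y) ↔ Λ'.Adj x y) ∧ ∀ x : D, τ (ι x) = ι (f x) := by
  classical
  obtain ⟨c, hc0, hc⟩ := ex_orient S Λ
  -- an extension of `f` to a permutation
  obtain ⟨φ, hφ⟩ : ∃ φ : Equiv.Perm S, ∀ x : D, φ x = f x := by
    have e : {x // x ∈ D} ≃ {y // y ∈ Set.range f} := Equiv.ofInjective f hinj
    refine ⟨Equiv.extendSubtype (Equiv.ofInjective f hinj), fun x => ?_⟩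
    rw [Equiv.extendSubtype_apply_of_mem _ _ x.2]
    rfl
  let F : S → S → ZMod 2 := fun x y =>
    if x ∈ D then c (φ x) (φ y) + c x y else if y ∈ D then c (φ y) (φ x) + c y x else 0
  have key : ∀ x y, x ∈ D → y ∈ D → c (φ x) (φ y) + c x y = c (φ y) (φ x) + c y x := by
    intro x y hx hy
    by_cases hxy : x = y
    · rw [hxy]
    have h1 := hc x y hxy
    have h2 := hc (φ x) (φ y) (fun h => hxy (φ.injective h))
    have h3 : Λ.Adj (φ x) (φ y) ↔ Λ.Adj x y := by
      have := hadj ⟨x, hx⟩ ⟨y, hy⟩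
      rw [← hφ, ← hφ] at this
      exact this
    have h4 : c (φ x) (φ y) + c (φ y) (φ x) = 1 ↔ c x y + c y x = 1 := by rw [h1, h2, h3]
    revert h4
    generalize c (φ x) (φ y) = a
    generalize c (φ y) (φ x) = b
    generalize c x y = d
    generalize c y x = e
    revert a b d e
    decide
  have hF : ∀ x y, F x y = F y x := by
    intro x y
    by_cases hx : x ∈ D
    · by_cases hy : y ∈ D
      · simp only [F, if_pos hx, if_pos hy]
        exact key x y hx hy
      · simp only [F, if_pos hx, if_neg hy]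
    · by_cases hy : y ∈ D
      · simp only [F, if_pos hy, if_neg hx]
      · simp only [F, if_neg hx, if_neg hy]
  let τ : Equiv.Perm (S × (S → ZMod 2)) :=
    { toFun := fun p => (φ p.1, fun z => p.2 (φ.symm z) + F p.1 (φ.symm z))
      invFun := fun p => (φ.symm p.1, fun z => p.2 (φ z) + F (φ.symm p.1) z)
      left_inv := fun p => by
        refine Prod.ext ?_ ?_
        · simp
        · funext z
          simp only [Equiv.symm_apply_apply, add_assoc]
          rw [CharTwo.add_self_eq_zero, add_zero]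
      right_inv := fun p => by
        refine Prod.ext ?_ ?_
        · simp
        · funext z
          simp only [Equiv.apply_symm_apply, add_assoc]
          rw [CharTwo.add_self_eq_zero, add_zero] }
  refine ⟨S × (S → ZMod 2), inferInstance, bigGraph S, fun x => (x, c x), τ, ?_, ?_, ?_, ?_⟩
  · intro x y h
    exact congrArg Prod.fst h
  · intro x y
    show (x ≠ y ∧ c x y + c y x = 1) ↔ _
    constructor
    · rintro ⟨h1, h2⟩
      exact (hc x y h1).1 h2
    · intro h
      exact ⟨h.ne, (hc x y h.ne).2 h⟩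
  · intro p q
    show (φ p.1 ≠ φ q.1 ∧ (p.2 (φ.symm (φ q.1)) + F p.1 (φ.symm (φ q.1))) +
      (q.2 (φ.symm (φ p.1)) + F q.1 (φ.symm (φ p.1))) = 1) ↔ (p.1 ≠ q.1 ∧ p.2 q.1 + q.2 p.1 = 1)
    rw [φ.symm_apply_apply, φ.symm_apply_apply, hF q.1 p.1, φ.injective.ne_iff]
    have : p.2 q.1 + F p.1 q.1 + (q.2 p.1 + F p.1 q.1) = p.2 q.1 + q.2 p.1 := by
      have h0 : F p.1 q.1 + F p.1 q.1 = 0 := CharTwo.add_self_eq_zero _
      calc p.2 q.1 + F p.1 q.1 + (q.2 p.1 + F p.1 q.1)
          = p.2 q.1 + q.2 p.1 + (F p.1 q.1 + F p.1 q.1) := by ring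
        _ = _ := by rw [h0, add_zero]
    rw [this]
  · intro x
    show (φ x, fun z => c x (φ.symm z) + F x (φ.symm z)) = (f x, c (f x))
    refine Prod.ext (hφ x) ?_
    funext z
    show c x (φ.symm z) + F x (φ.symm z) = c (f x) z
    simp only [F, if_pos x.2, Equiv.apply_symm_apply, hφ]
    have h0 : c x (φ.symm z) + c x (φ.symm z) = 0 := CharTwo.add_self_eq_zero _
    calc c x (φ.symm z) + (c (f x) z + c x (φ.symm z))
        = c (f x) z + (c x (φ.symm z) + c x (φ.symm z)) := by ring
      _ = _ := by rw [h0, add_zero]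

end Pool.Agent.N77.GP
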